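import Pool.Agent.helper52.OC.SpecA

set_option autoImplicit false

namespace OC

theorem OB1 : OB1_stmt := by
  intro G _ N P hN hP
  have h1 : ∀ a ∈ P, ∀ n ∈ N, a * n ∈ P := by
    intro a ha n hn
    have hnot : a * n ∉ N := by
      intro h
      have h2 := N.mul_mem h (N.inv_mem hn)
      rw [mul_inv_cancel_right] at h2
      exact hP.dis a ha h2
    rcases hP.tri _ hnot with h | h
    · exact h
    · exfalso
      have h3 := hP.mul _ h _ ha
      have h4 : (a * n)⁻¹ * a = n⁻¹ := by group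
      rw [h4] at h3
      exact hP.dis _ h3 (N.inv_mem hn)
  have hpow : ∀ a ∈ P, ∀ m : ℕ, a ^ (m + 1) ∈ P := by
    intro a ha m
    induction m with
    | zero => simpa using ha
    | succ k ih =>
      rw [pow_succ]
      exact hP.mul _ ih _ ha
  have hnat : ∀ (a : G) (m : ℕ), a ^ (m + 1) ∈ N → a ∈ N := by
    intro a m h
    by_contra hna
    rcases hP.tri a hna with h2 | h2
    · exact hP.dis _ (hpow a h2 m) h
    · have h3 := hpow _ h2 m
      rw [inv_pow] at h3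
      exact hP.dis _ h3 (N.inv_mem h)
  have key : ∀ b g : G, b⁻¹ * g ∈ P → ∀ m : ℕ, (b ^ (m + 1))⁻¹ * g ^ (m + 1) ∈ P := by
    intro b g h m
    induction m with
    | zero => simpa using h
    | succ k ih =>
      have h2 := hP.conj _ h (g ^ (k + 1))
      have h3 := hP.mul _ ih _ h2
      have h4 : (b ^ (k + 1))⁻¹ * g ^ (k + 1) * ((g ^ (k + 1))⁻¹ * (b⁻¹ * g) * g ^ (k + 1)) =
          (b ^ (k + 1 + 1))⁻¹ * g ^ (k + 1 + 1) := by
        rw [pow_succ' b (k + 1), pow_succ' g (k + 1)]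
        group
      rw [h4] at h3
      exact h3
  have hnat3 : ∀ (b g : G) (m : ℕ), (b ^ (m + 1))⁻¹ * g ^ (m + 1) ∈ N → b⁻¹ * g ∈ N := by
    intro b g m h
    by_contra hna
    rcases hP.tri _ hna with h2 | h2
    · exact hP.dis _ (key b g h2 m) h
    · have h5 : (b⁻¹ * g)⁻¹ = g⁻¹ * b := by group
      rw [h5] at h2
      have h3 := key g b h2 m
      have h4 : (g ^ (m + 1))⁻¹ * b ^ (m + 1) = ((b ^ (m + 1))⁻¹ * g ^ (m + 1))⁻¹ := by group
      rw [h4] at h3
      exact hP.dis _ h3 (N.inv_mem h)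
  refine ⟨?_, ?_, ?_, ?_⟩
  · intro a ha n hn
    refine ⟨h1 a ha n hn, ?_⟩
    have h2 : a⁻¹ * n * a ∈ N := by
      have := hN.conj_mem n hn a⁻¹
      simpa using this
    have h3 := h1 a ha _ h2
    have h4 : a * (a⁻¹ * n * a) = n * a := by group
    rw [h4] at h3
    exact h3
  · intro a k hk h
    obtain ⟨m, hm | hm⟩ := k.eq_nat_or_neg
    · subst hm
      obtain ⟨j, rfl⟩ : ∃ j, m = j + 1 := ⟨m - 1, by omega⟩
      rw [zpow_natCast] at h
      exact hnat a j h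
    · subst hm
      obtain ⟨j, rfl⟩ : ∃ j, m = j + 1 := ⟨m - 1, by omega⟩
      rw [zpow_neg, zpow_natCast] at h
      have h2 := N.inv_mem h
      rw [inv_inv] at h2
      exact hnat a j h2
  · intro a g c hc h
    have hb : a⁻¹ * cj a g = (a⁻¹ * g * a)⁻¹ * g := by
      unfold cj; group
    rw [hb]
    obtain ⟨m, hm | hm⟩ := c.eq_nat_or_neg
    · subst hm
      obtain ⟨j, rfl⟩ : ∃ j, m = j + 1 := ⟨m - 1, by omega⟩
      rw [zpow_natCast] at h
      apply hnat3 _ _ j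
      have h2 : (a⁻¹ * g * a) ^ (j + 1) = a⁻¹ * g ^ (j + 1) * a := by
        have := conj_pow (i := j + 1) (a := a⁻¹) (b := g)
        simpa using this
      rw [h2]
      have h3 : (a⁻¹ * g ^ (j + 1) * a)⁻¹ * g ^ (j + 1) = a⁻¹ * cj a (g ^ (j + 1)) := by
        unfold cj; group
      rw [h3]
      exact h
    · subst hm
      obtain ⟨j, rfl⟩ : ∃ j, m = j + 1 := ⟨m - 1, by omega⟩
      rw [zpow_neg, zpow_natCast] at h
      apply hnat3 _ _ j
      have h2 : (a⁻¹ * g * a) ^ (j + 1) = a⁻¹ * g ^ (j + 1) * a := by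
        have := conj_pow (i := j + 1) (a := a⁻¹) (b := g)
        simpa using this
      rw [h2]
      -- h : a⁻¹ * cj a (g^(j+1))⁻¹ ∈ N
      have h3 : a⁻¹ * cj a (g ^ (j + 1))⁻¹ = (a⁻¹ * g ^ (j + 1) * a) * (g ^ (j + 1))⁻¹ := by
        unfold cj; group
      rw [h3] at h
      have h4 := hN.conj_mem _ h (g ^ (j + 1))⁻¹
      have h5 := N.inv_mem h4
      have h6 : ((g ^ (j + 1))⁻¹ * (a⁻¹ * g ^ (j + 1) * a * (g ^ (j + 1))⁻¹) * (g ^ (j + 1))⁻¹⁻¹)⁻¹ =
          (a⁻¹ * g ^ (j + 1) * a)⁻¹ * g ^ (j + 1) := by group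
      rw [h6] at h5
      exact h5
  · intro g x h
    by_contra hna
    rcases hP.tri _ hna with h2 | h2
    · exact hP.dis _ (hP.mul _ h2 _ (hP.conj _ h2 x)) h
    · have h3 := hP.mul _ (hP.conj _ h2 x) _ h2
      have h4 : x⁻¹ * g⁻¹ * x * g⁻¹ = (g * cj g x)⁻¹ := by
        unfold cj; group
      rw [h4] at h3
      exact hP.dis _ h3 (N.inv_mem h)

end OC
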